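import Pool.Agent.H477.O.Stm

set_option autoImplicit false

/-! Project O (helper477), task 14511: `S_OFLAT` from `S_OLOG`, `S_OFAR`. -/

open Complex Filter Topology Metric Set

namespace Pool.Agent.H585.O

open Pool.Agent.H477.O

/-- the derivative of the logarithm of the norm along a horizontal line -/
theorem hasDerivAt_log_norm (f : ℂ → ℂ) (hf : Differentiable ℂ f) (z : ℂ) (s : ℝ)
    (h0 : f (z + s) ≠ 0) :
    HasDerivAt (fun x : ℝ => Real.log ‖f (z + x)‖) (logDeriv f (z + s)).re s := by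
  have h1 : HasDerivAt (fun x : ℝ => f (z + x)) (deriv f (z + s)) s := by
    have h2 : HasDerivAt (fun w : ℂ => f (z + w)) (deriv f (z + s)) ((s : ℝ) : ℂ) :=
      (hf (z + s)).hasDerivAt.comp_const_add z (s : ℂ)
    exact h2.comp_ofReal
  have h3 : HasDerivAt (fun x : ℝ => ‖f (z + x)‖ ^ 2) (2 * inner ℝ (f (z + s)) (deriv f (z + s))) s :=
    h1.norm_sq
  have hn : ‖f (z + s)‖ ≠ 0 := norm_ne_zero_iff.2 h0
  have hn2 : ‖f (z + s)‖ ^ 2 ≠ 0 := pow_ne_zero _ hn
  have h4 := (h3.log hn2).const_mul (1 / 2 : ℝ)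
  have h5 : (fun x : ℝ => 1 / 2 * Real.log (‖f (z + x)‖ ^ 2)) = fun x : ℝ => Real.log ‖f (z + x)‖ := by
    funext x
    rw [Real.log_pow]
    push_cast
    ring
  rw [h5] at h4
  have h6 : (1 / 2 : ℝ) * (2 * inner ℝ (f (z + s)) (deriv f (z + s)) / ‖f (z + s)‖ ^ 2) =
      (logDeriv f (z + s)).re := by
    rw [Complex.inner, logDeriv_apply, Complex.div_re, ← Complex.normSq_eq_norm_sq]
    have h7 : Complex.normSq (f (z + s)) ≠ 0 := by
      rw [Complex.normSq_eq_norm_sq]; exact hn2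
    simp only [Complex.mul_re, Complex.conj_re, Complex.conj_im]
    field_simp
    ring
  rw [h6] at h4
  exact h4

/-- comparison of the sizes along a horizontal segment -/
theorem log_norm_sub (f : ℂ → ℂ) (hf : Differentiable ℂ f) (z : ℂ) (t ℓ η : ℝ) (ht : 0 ≤ t)
    (h : ∀ s : ℝ, 0 ≤ s → s ≤ t → f (z + s) ≠ 0 ∧ ‖logDeriv f (z + s) - ℓ‖ ≤ η) :
    |Real.log ‖f (z + t)‖ - Real.log ‖f z‖ - ℓ * t| ≤ η * t := by
  rcases eq_or_lt_of_le ht with h0 | h0
  · subst h0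
    simp
  obtain ⟨c, hc, he⟩ := exists_hasDerivAt_eq_slope (fun x : ℝ => Real.log ‖f (z + x)‖)
    (fun x : ℝ => (logDeriv f (z + x)).re) h0
    (fun x hx => (hasDerivAt_log_norm f hf z x (h x hx.1 hx.2).1).continuousAt.continuousWithinAt)
    (fun x hx => hasDerivAt_log_norm f hf z x (h x hx.1.le hx.2.le).1)
  have h1 := (h c hc.1.le hc.2.le).2
  have h2 : |(logDeriv f (z + c)).re - ℓ| ≤ η := by
    have h3 := Complex.abs_re_le_norm (logDeriv f (z + c) - ℓ)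
    rw [Complex.sub_re, Complex.ofReal_re] at h3
    exact h3.trans h1
  simp only [Complex.ofReal_zero, add_zero, sub_zero] at he
  have h4 : Real.log ‖f (z + t)‖ - Real.log ‖f z‖ = (logDeriv f (z + c)).re * t := by
    rw [he]
    field_simp
  rw [h4, ← sub_mul, abs_mul, abs_of_pos h0]
  exact mul_le_mul_of_nonneg_right h2 h0.le

theorem t_OFLAT (hlog : S_OLOG) (hfar : S_OFAR) : S_OFLAT := by
  intro a K j R δ e hδ hδ1 he hR
  rcases le_or_gt a 0 with ha | ha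
  · exact ⟨1, le_refl _, fun X M ℓ y hX => absurd hX.ha (not_lt.2 ha)⟩
  have hj : (0 : ℝ) ≤ j := Nat.cast_nonneg j
  set P : ℝ := a + j + 3 with hP
  have hP3 : 3 < P := by linarith
  set e' : ℝ := e / (4 * P) with he'
  have he'0 : 0 < e' := by positivity
  have he'1 : e' ≤ e := by
    rw [he', div_le_iff₀ (by linarith)]
    nlinarith
  have he'2 : e' * P = e / 4 := by
    rw [he']
    field_simp
  obtain ⟨ℓ₁, hℓ₁, h1⟩ := hlog a K j R δ e' hδ hδ1 he'0 hR
  obtain ⟨K', ℓ₂, hK', hℓ₂, h2⟩ := hfar a K j 1 R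
  -- the growth condition
  have hev : ∀ᶠ x : ℝ in atTop, (2 * x) ^ j * Real.exp K' ≤ Real.exp (e / 2 * x) := by
    have h3 := (isLittleO_pow_exp_pos_mul_atTop (k := j) (half_pos he)).bound
      (c := (2 ^ j * Real.exp K')⁻¹) (by positivity)
    filter_upwards [h3, eventually_ge_atTop (0 : ℝ)] with x hx hx0
    rw [Real.norm_of_nonneg (pow_nonneg hx0 _), Real.norm_of_nonneg (Real.exp_pos _).le,
      inv_mul_eq_div, le_div_iff₀ (by positivity)] at hx
    calc (2 * x) ^ j * Real.exp K' = x ^ j * (2 ^ j * Real.exp K') := by rw [mul_pow]; ring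
      _ ≤ _ := hx
  obtain ⟨ℓ₃, hℓ₃⟩ := eventually_atTop.1 hev
  refine ⟨max (max ℓ₁ ℓ₂) (max ℓ₃ (2 * K' / e)), le_trans hℓ₁ (le_trans (le_max_left _ _) (le_max_left _ _)), ?_⟩
  intro X M ℓ y hX hℓ b hb0 hba hZF
  have l1 : ℓ₁ ≤ ℓ := le_trans (le_trans (le_max_left _ _) (le_max_left _ _)) hℓ
  have l2 : ℓ₂ ≤ ℓ := le_trans (le_trans (le_max_right _ _) (le_max_left _ _)) hℓ
  have l3 : ℓ₃ ≤ ℓ := le_trans (le_trans (le_max_left _ _) (le_max_right _ _)) hℓ
  have l4 : 2 * K' / e ≤ ℓ := le_trans (le_trans (le_max_right _ _) (le_max_right _ _)) hℓ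
  have l5 : K' ≤ e / 2 * ℓ := by
    rw [div_le_iff₀ he] at l4
    linarith
  have hℓ1 : 1 ≤ ℓ := le_trans hℓ₁ l1
  have l6 := hℓ₃ ℓ l3
  have hLog := h1 X M ℓ y hX l1 b hb0 hba hZF
  have hd : Differentiable ℂ (iteratedDeriv j X) :=
    (hX.diff.contDiff (n := (j + 1 : ℕ))).differentiable_iteratedDeriv j (by exact_mod_cast Nat.lt_succ_self j)
  set f := iteratedDeriv j X with hf
  intro z hz1 hz2 hz3
  obtain ⟨hz0, hzl⟩ := hLog z (by linarith) hz2 hz3
  refine ⟨hz0, hzl.trans (mul_le_mul_of_nonneg_right he'1 (by linarith)), ?_⟩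
  set t : ℝ := max 0 (1 / 2 + a + j - z.re) with ht
  have ht0 : 0 ≤ t := le_max_left _ _
  have ht1 : 1 / 2 + a + j - z.re ≤ t := le_max_right _ _
  have ht2 : t ≤ P := max_le (by linarith) (by linarith)
  have ht3 : z.re + t ≤ 1 / 2 + R := by
    rcases max_cases 0 (1 / 2 + a + j - z.re) with ⟨h, -⟩ | ⟨h, -⟩
    · rw [← ht] at h; rw [h]; linarith
    · rw [← ht] at h; rw [h]; linarith
  have hseg : ∀ s : ℝ, 0 ≤ s → s ≤ t → f (z + s) ≠ 0 ∧ ‖logDeriv f (z + s) - ℓ‖ ≤ e' * ℓ := by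
    intro s hs0 hs1
    have hre : (z + s).re = z.re + s := by simp
    have him : (z + s).im = z.im := by simp
    exact hLog (z + s) (by rw [hre]; linarith) (by rw [hre]; linarith) (by rw [him]; exact hz3)
  have hkey := log_norm_sub f hd z t ℓ (e' * ℓ) ht0 hseg
  have hkey2 : e' * ℓ * t ≤ e / 4 * ℓ := by
    calc e' * ℓ * t ≤ e' * ℓ * P := mul_le_mul_of_nonneg_left ht2 (by positivity)
      _ = e / 4 * ℓ := by rw [← he'2]; ring
  have hre : (z + t).re = z.re + t := by simp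
  have him : (z + t).im = z.im := by simp
  obtain ⟨g0, -, g1, g2⟩ := h2 X M ℓ y hX l2 (z + t) (by rw [hre]; linarith) (by rw [hre]; exact ht3)
    (by rw [him]; exact hz3)
  rw [hre] at g1 g2
  have hM := hX.hM
  have n0 : 0 < ‖f z‖ := norm_pos_iff.2 hz0
  have n1 : 0 < ‖f (z + t)‖ := norm_pos_iff.2 g0
  -- logarithms
  have k1 : Real.log M + (ℓ * (z.re + t - 1 / 2) - K') ≤ Real.log ‖f (z + t)‖ := by
    rw [← Real.log_exp (ℓ * (z.re + t - 1 / 2) - K'), ← Real.log_mul hM.ne' (Real.exp_pos _).ne']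
    exact Real.log_le_log (by positivity) g1
  have k2 : Real.log ‖f (z + t)‖ ≤ Real.log M + (ℓ * (z.re + t - 1 / 2) + e / 2 * ℓ) := by
    rw [← Real.log_exp (ℓ * (z.re + t - 1 / 2) + e / 2 * ℓ), ← Real.log_mul hM.ne' (Real.exp_pos _).ne']
    refine Real.log_le_log n1 (g2.trans ?_)
    rw [Real.exp_add, Real.exp_add, mul_assoc]
    refine mul_le_mul_of_nonneg_left ?_ hM.le
    calc (2 * ℓ) ^ j * (Real.exp (ℓ * (z.re + t - 1 / 2)) * Real.exp K')
        = Real.exp (ℓ * (z.re + t - 1 / 2)) * ((2 * ℓ) ^ j * Real.exp K') := by ring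
      _ ≤ _ := mul_le_mul_of_nonneg_left l6 (Real.exp_pos _).le
  rw [abs_le] at hkey
  obtain ⟨q1, q2⟩ := hkey
  have hpos : 0 < e * ℓ := by positivity
  constructor
  · have r1 : Real.log M + ℓ * (z.re - 1 / 2 - e) ≤ Real.log ‖f z‖ := by
      linarith
    rw [← Real.exp_log hM, ← Real.exp_add]
    calc _ ≤ Real.exp (Real.log ‖f z‖) := Real.exp_le_exp.2 r1
      _ = _ := Real.exp_log n0
  · have r2 : Real.log ‖f z‖ ≤ Real.log M + ℓ * (z.re - 1 / 2 + e) := by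
      linarith
    calc ‖f z‖ = Real.exp (Real.log ‖f z‖) := (Real.exp_log n0).symm
      _ ≤ Real.exp (Real.log M + ℓ * (z.re - 1 / 2 + e)) := Real.exp_le_exp.2 r2
      _ = _ := by rw [Real.exp_add, Real.exp_log hM]

end Pool.Agent.H585.O
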